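import Pool.Agent.V7Lead.GH.Fin1
import Pool.Agent.V7Lead.GH.CB
import Pool.Agent.V7H34.GH.PTC
import Pool.Agent.V7H34.GH.COFC
import Pool.Agent.V7H67.GH.Far
import Pool.Agent.V7H67.GH.D1
import Pool.Agent.V7H93.GH.D2
import Pool.Agent.Q97.UM.Jm

set_option autoImplicit false

/-!
# Discrete moments of the derivative of zeta: the exact order for small positive exponents, unconditionally

Let `J(λ, T)` be the sum of `|ζ'(ρ)|^(2λ)` over the simple zeros `ρ = β + iγ` of the Riemann zeta function with `0 < β < 1`,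
`0 < γ ≤ T` (all zeros of this region, if they are simple).  No hypothesis on the zeros is made.

* (1) For every real `λ` there is `c > 0` such that `J(λ, T) ≥ c T (log T)^((λ+1)²)` for all large `T`.
* (2) There is `λ₀ > 0` such that for `0 < λ ≤ λ₀` also `J(λ, T) ≤ C T (log T)^((λ+1)²)` for all large `T`.
* (3) For `0 < λ < 1` there is `A ≥ 0` such that the sum with the additional weights `γ^(-A |β - 1/2|)` has the exact order
  `T (log T)^((λ+1)²)`.
* (4) For `0 < λ < 1` and `K ≥ 0` the sum over the zeros with `|β - 1/2| ≤ K / log T` has this exact order.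

The lower bound is in the starting files (`Pool/Agent/Q97/UM/Jm.lean`), and so is the upper bound over the zeros ON the critical line
for `0 < λ < 1`.  New is the upper bound with the zeros off the line: the Dirichlet polynomials of that proof are evaluated at the zeros
themselves, band limited functions grow at most like `T^(B |β - 1/2|)` off the line, and the zeros off the line are rare.
-/

namespace Pool.Agent.Results.MP_69b2e4_nt.SmallOrdersLead

open Filter Topology Complex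

noncomputable section

/-- the nontrivial zeros of zeta with ordinate in `(0, T]` -/
def zeros (T : ℝ) : Set ℂ := {s : ℂ | riemannZeta s = 0 ∧ 0 < s.re ∧ s.re < 1 ∧ 0 < s.im ∧ s.im ≤ T}

/-- the sum of `|ζ'(ρ)|^(2λ)` over the simple ones among them -/
def J (lam T : ℝ) : ℝ := ∑ᶠ s ∈ {s : ℂ | s ∈ zeros T ∧ deriv riemannZeta s ≠ 0}, ‖deriv riemannZeta s‖ ^ (2 * lam)

/-- the same sum with the weights `γ^(-A |β - 1/2|)` -/
def JW (lam A T : ℝ) : ℝ := ∑ᶠ s ∈ {s : ℂ | s ∈ zeros T ∧ deriv riemannZeta s ≠ 0},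
  ‖deriv riemannZeta s‖ ^ (2 * lam) * s.im ^ (-(A * |s.re - 1 / 2|))

/-- the sum over the simple zeros at distance at most `K / log T` from the critical line -/
def JN (lam K T : ℝ) : ℝ := ∑ᶠ s ∈ {s : ℂ | s ∈ zeros T ∧ deriv riemannZeta s ≠ 0 ∧ |s.re - 1 / 2| ≤ K / Real.log T},
  ‖deriv riemannZeta s‖ ^ (2 * lam)

open Pool.Agent.V7Lead.GH in
open Classical in
theorem fsum_eq (p : ℂ → Prop) (f : ℂ → ℝ) (T : ℝ) : ∑ᶠ s ∈ {s : ℂ | s ∈ zeros T ∧ p s}, f s = Sm (fun s => if p s then f s else 0) T := by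
  have h1 : {s : ℂ | s ∈ zeros T ∧ p s}.Finite := (zeros_finite T).subset fun s hs => hs.1
  rw [finsum_mem_eq_finite_toFinset_sum _ h1, Sm_eq, ← Finset.sum_filter]
  refine Finset.sum_congr ?_ fun _ _ => rfl
  ext s
  rw [Set.Finite.mem_toFinset, Finset.mem_filter, Set.Finite.mem_toFinset]
  rfl

open Pool.Agent.V7Lead.GH Pool.Agent.Q97.UM in
theorem core : Core :=
  t_core t_CB Pool.Agent.V7H67.GH.D1.t_D1 Pool.Agent.V7H93.GH.t_D2 Pool.Agent.V7H34.GH.PTC.t_PTC Pool.Agent.V7H34.GH.COFC.t_COFC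
    b_PT2 b_TOR b_COF b_TSC Pool.Agent.Q92.UM.t_BLZ b_STM Pool.Agent.Q84.UM.t_DPM Pool.Agent.Q84.UM.t_MVL b_TAIL

open Pool.Agent.V7Lead.GH Pool.Agent.Q97.UM in
/-- the bound for the far zeros and for the number of zeros -/
theorem far : ∃ K lam₁ : ℝ, 0 < K ∧ 0 < lam₁ ∧ ∀ᶠ T : ℝ in atTop,
    (∀ s ∈ H370.Zf riemannZeta T (2 * T), ‖deriv riemannZeta s‖ ≤ T ^ K) ∧
    ∀ lam : ℝ, 0 < lam → lam ≤ lam₁ → ∑ s ∈ Zfar T, ‖deriv riemannZeta s‖ ^ (2 * lam) ≤ T := by
  obtain ⟨θ, c, C, h1, h2, h3, h4, h5⟩ := b_TAIL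
  obtain ⟨C', hC', h6⟩ := b_STM θ c C h1 h2 h3 h4 h5 2 (c / 48) (by positivity) (by push_cast; linarith)
  obtain ⟨K, lam₁, hK, hl, h7⟩ := Pool.Agent.V7H67.GH.t_FAR b_DSC (θ / 2) (c / 48) C' (by positivity) (by linarith) (by positivity) hC' h6
  refine ⟨K, lam₁, hK, hl, ?_⟩
  filter_upwards [h7] with T h8
  refine ⟨h8.1, fun lam h9 h10 => ?_⟩
  refine (le_of_eq ?_).trans (h8.2 lam h9 h10)
  refine Finset.sum_congr ?_ fun _ _ => rfl
  unfold Zfar
  congr

open Pool.Agent.V7Lead.GH Pool.Agent.Q97.UM in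
theorem card_up : ∃ C : ℝ, 0 ≤ C ∧ ∀ᶠ T : ℝ in atTop, ((H370.Zf riemannZeta T (2 * T)).card : ℝ) ≤ C * Real.log T * T := by
  obtain ⟨θ, c, C, h1, h2, h3, h4, h5⟩ := b_TAIL
  obtain ⟨C', hC', h6⟩ := b_STM θ c C h1 h2 h3 h4 h5 1 (c / 32) (by positivity) (by push_cast; linarith)
  obtain ⟨C₂, hC₂, h7⟩ := b_DSC (θ / 2) (c / 32) 0 C' (by positivity) (by linarith) (by positivity) hC' h6
  refine ⟨C₂, hC₂, ?_⟩
  filter_upwards [h7, eventually_ge_atTop 16] with T h8 hT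
  have h9 := h8 1 (by rw [Nat.cast_one]; exact Real.one_le_rpow (by linarith) (by positivity)) b1
  have e1 : N2 1 b1 = 1 := by
    unfold N2 b1
    simp
  have e2 : ∀ s ∈ H370.Zf riemannZeta T (2 * T), (1 : ℝ) ≤ (mz s : ℝ) * (SS (c / 32) T s.im ^ 0 * ‖dp 1 b1 s.im‖ ^ 2) := by
    intro s hs
    rw [H370.mem_Zf H370.good_zeta (by linarith)] at hs
    have := H370.Loc.mult_pos' H370.good_zeta (show 0 < s.im by linarith [hs.2.2.1]) hs.2.2.2.2
    have h3 : 1 ≤ mz s := this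
    rw [pow_zero, dp_b1, norm_one, one_pow, mul_one, mul_one]
    exact_mod_cast h3
  have e3 := Finset.sum_le_sum e2
  rw [Finset.sum_const, nsmul_eq_mul, mul_one] at e3
  refine (e3.trans h9).trans (le_of_eq ?_)
  rw [e1]
  ring

open Pool.Agent.V7Lead.GH Pool.Agent.Q97.UM in
/-- **exact order of the discrete moments for small exponents** -/
theorem result :
    (∀ T : ℝ, (zeros T).Finite) ∧
    (∀ lam : ℝ, ∃ c T₀ : ℝ, 0 < c ∧ ∀ T : ℝ, T₀ ≤ T → c * T * Real.log T ^ ((lam + 1) ^ 2) ≤ J lam T) ∧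
    (∃ lam₀ : ℝ, 0 < lam₀ ∧ ∀ lam : ℝ, 0 < lam → lam ≤ lam₀ → ∃ C T₀ : ℝ, ∀ T : ℝ, T₀ ≤ T →
      J lam T ≤ C * T * Real.log T ^ ((lam + 1) ^ 2)) ∧
    (∀ lam : ℝ, 0 < lam → lam < 1 → ∃ A c C T₀ : ℝ, 0 ≤ A ∧ 0 < c ∧ ∀ T : ℝ, T₀ ≤ T →
      c * T * Real.log T ^ ((lam + 1) ^ 2) ≤ JW lam A T ∧ JW lam A T ≤ C * T * Real.log T ^ ((lam + 1) ^ 2)) ∧
    (∀ lam K : ℝ, 0 < lam → lam < 1 → 0 ≤ K → ∃ c C T₀ : ℝ, 0 < c ∧ ∀ T : ℝ, T₀ ≤ T →
      c * T * Real.log T ^ ((lam + 1) ^ 2) ≤ JN lam K T ∧ JN lam K T ≤ C * T * Real.log T ^ ((lam + 1) ^ 2)) := by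
  classical
  have he : ∀ lam : ℝ, 0 ≤ (lam + 1) ^ 2 := fun lam => sq_nonneg _
  have hNUp : NUp := fun lam h0 h1 => N2_up h0 h1
  -- lower bounds, for every weight which is at least `1` on the critical line
  have low : ∀ (lam : ℝ) (p : ℝ → ℂ → Prop) (w : ℂ → ℝ), (∀ s, 0 ≤ w s) → (∀ T s, s.re = 1 / 2 → 3 ≤ T → p T s) →
      (∀ s, s.re = 1 / 2 → w s = 1) → ∃ c T₀ : ℝ, 0 < c ∧ ∀ T : ℝ, T₀ ≤ T → c * T * Real.log T ^ ((lam + 1) ^ 2) ≤
        ∑ᶠ s ∈ {s : ℂ | s ∈ zeros T ∧ deriv riemannZeta s ≠ 0 ∧ p T s}, ‖deriv riemannZeta s‖ ^ (2 * lam) * w s := by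
    intro lam p w hw hp hw1
    obtain ⟨d, hd0, hd1, h⟩ := J_low
    obtain ⟨c, hc, h⟩ := h (max 1 |lam|) (le_max_left _ _)
    set g : ℂ → ℝ := fun s => if deriv riemannZeta s ≠ 0 ∧ s.re = 1 / 2 then ‖deriv riemannZeta s‖ ^ (2 * lam) * w s else 0 with hg
    have hg0 : ∀ s, 0 ≤ g s := by
      intro s
      simp only [hg]
      split_ifs
      · exact mul_nonneg (by positivity) (hw s)
      · exact le_rfl
    have h1 : ∀ᶠ T : ℝ in atTop, c * T * Real.log T ^ ((lam + 1) ^ 2) ≤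
        ∑ s ∈ (if 16 ≤ T then ZI d T else ∅), g s := by
      filter_upwards [h, eventually_ge_atTop 16] with T h2 hT
      rw [if_pos hT]
      refine (h2 lam (le_max_right _ _)).trans (le_of_eq ?_)
      refine Finset.sum_congr rfl fun s hs => ?_
      rw [mem_ZI_iff hT hd1] at hs
      simp only [hg]
      rw [if_pos ⟨hs.2.2.2.2.1, hs.1⟩, hw1 s hs.1, mul_one]
    obtain ⟨c', T₀, hc', h3⟩ := Sm_low hg0 (he lam) hc _ (fun T hT s hs => by
      rw [if_pos hT] at hs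
      rw [mem_ZI_iff hT hd1] at hs
      rw [H370.mem_Zf H370.good_zeta (by linarith)]
      obtain ⟨a1, a2, a3, a4, _⟩ := hs
      exact ⟨by rw [a1]; norm_num, by rw [a1]; norm_num, a2, a3, a4⟩) h1
    refine ⟨c', max T₀ 3, hc', fun T hT => (h3 T ((le_max_left _ _).trans hT)).trans ?_⟩
    have hT3 : 3 ≤ T := (le_max_right _ _).trans hT
    rw [fsum_eq, Sm_eq, Sm_eq]
    refine Finset.sum_le_sum fun s _ => ?_
    simp only [hg]
    by_cases h4 : deriv riemannZeta s ≠ 0 ∧ s.re = 1 / 2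
    · rw [if_pos h4, if_pos ⟨h4.1, hp T s h4.2 hT3⟩]
    · rw [if_neg h4]
      split_ifs
      · exact mul_nonneg (by positivity) (hw s)
      · exact le_rfl
  have low1 : ∀ lam : ℝ, ∃ c T₀ : ℝ, 0 < c ∧ ∀ T : ℝ, T₀ ≤ T → c * T * Real.log T ^ ((lam + 1) ^ 2) ≤ J lam T := by
    intro lam
    obtain ⟨c, T₀, hc, h⟩ := low lam (fun _ _ => True) (fun _ => 1) (fun _ => zero_le_one) (fun _ _ _ _ => trivial) (fun _ _ => rfl)
    refine ⟨c, T₀, hc, fun T hT => (h T hT).trans (le_of_eq ?_)⟩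
    unfold J
    simp only [and_true, mul_one]
  obtain ⟨K₁, lam₁, hK₁, hl₁, hfar⟩ := far
  have hfar1 : ∃ lam₁ : ℝ, 0 < lam₁ ∧ ∀ᶠ T : ℝ in atTop,
      ∀ lam : ℝ, 0 < lam → lam ≤ lam₁ → ∑ s ∈ Zfar T, ‖deriv riemannZeta s‖ ^ (2 * lam) ≤ T :=
    ⟨lam₁, hl₁, hfar.mono fun T h => h.2⟩
  have hfar2 : ∃ K : ℝ, 0 < K ∧ ∀ᶠ T : ℝ in atTop, ∀ s ∈ H370.Zf riemannZeta T (2 * T), ‖deriv riemannZeta s‖ ≤ T ^ K :=
    ⟨K₁, hK₁, hfar.mono fun T h => h.1⟩
  -- the weighted bound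
  have hJW : ∀ lam A T : ℝ, JW lam A T = Sm (fun s => if deriv riemannZeta s ≠ 0 then
      ‖deriv riemannZeta s‖ ^ (2 * lam) * |s.im| ^ (-(A * |s.re - 1 / 2|)) else 0) T := by
    intro lam A T
    unfold JW
    rw [fsum_eq, Sm_eq, Sm_eq]
    refine Finset.sum_congr rfl fun s hs => ?_
    rw [Set.Finite.mem_toFinset] at hs
    rw [abs_of_pos hs.2.2.2.1]
    split_ifs <;> rfl
  have hWt : ∀ lam : ℝ, 0 < lam → lam < 1 → ∃ A : ℝ, 0 ≤ A ∧ ∃ C T₀ : ℝ, ∀ T : ℝ, T₀ ≤ T →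
      JW lam A T ≤ C * T * Real.log T ^ ((lam + 1) ^ 2) := by
    intro lam h0 h1
    obtain ⟨A, hA, C, hC, h⟩ := dy_weight core hNUp hfar2 card_up lam h0 h1
    refine ⟨A, hA, ?_⟩
    simp only [hJW]
    refine Sm_up (fun s => ?_) (he lam) ⟨C, hC, ?_⟩
    · split_ifs
      · positivity
      · exact le_rfl
    · filter_upwards [h, eventually_ge_atTop 16] with T h2 hT
      refine (Finset.sum_le_sum fun s hs => ?_).trans h2
      rw [H370.mem_Zf H370.good_zeta (by linarith)] at hs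
      have hT0 : 0 < T := by linarith
      have e1 : |s.im| ^ (-(A * |s.re - 1 / 2|)) ≤ Real.exp (-(A * (Real.log T * |s.re - 1 / 2|))) := by
        have e2 : Real.exp (-(A * (Real.log T * |s.re - 1 / 2|))) = T ^ (-(A * |s.re - 1 / 2|)) := by
          rw [Real.rpow_def_of_pos hT0]
          congr 1
          ring
        rw [e2]
        apply Real.rpow_le_rpow_of_nonpos hT0
        · exact hs.2.2.1.le.trans (le_abs_self _)
        · have : 0 ≤ A * |s.re - 1 / 2| := by positivity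
          linarith
      split_ifs
      · exact mul_le_mul_of_nonneg_left e1 (by positivity)
      · positivity
  refine ⟨zeros_finite, low1, ?_, ?_, ?_⟩
  · obtain ⟨lam₀, hl0, h⟩ := dy_small core hNUp hfar1
    refine ⟨lam₀, hl0, fun lam h0 h1 => ?_⟩
    obtain ⟨C, hC, h2⟩ := h lam h0 h1
    obtain ⟨C', T₀, h3⟩ := Sm_up (g := fun s => ‖deriv riemannZeta s‖ ^ (2 * lam)) (fun s => by positivity) (he lam) ⟨C, hC, h2⟩
    refine ⟨C', T₀, fun T hT => le_trans ?_ (h3 T hT)⟩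
    unfold J
    rw [fsum_eq, Sm_eq, Sm_eq]
    refine Finset.sum_le_sum fun s _ => ?_
    split_ifs
    · exact le_rfl
    · positivity
  · intro lam h0 h1
    obtain ⟨A, hA, C, T₀, h⟩ := hWt lam h0 h1
    obtain ⟨c, T₁, hc, h2⟩ := low lam (fun _ _ => True) (fun s => |s.im| ^ (-(A * |s.re - 1 / 2|))) (fun s => by positivity)
      (fun _ _ _ _ => trivial) (fun s hs => by rw [hs]; simp)
    refine ⟨A, c, C, max T₀ T₁, hA, hc, fun T hT => ⟨?_, h T ((le_max_left _ _).trans hT)⟩⟩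
    refine (h2 T ((le_max_right _ _).trans hT)).trans (le_of_eq ?_)
    rw [hJW]
    simp only [and_true]
    rw [fsum_eq, Sm_eq, Sm_eq]
    refine Finset.sum_congr rfl fun s _ => ?_
    split_ifs <;> rfl
  · intro lam K h0 h1 hK
    obtain ⟨A, hA, C, T₀, h⟩ := hWt lam h0 h1
    obtain ⟨c, T₁, hc, h2⟩ := low lam (fun T s => |s.re - 1 / 2| ≤ K / Real.log T) (fun _ => 1) (fun _ => zero_le_one)
      (fun T s hs hT => by
        rw [hs, sub_self, abs_zero]
        have : 0 ≤ Real.log T := Real.log_nonneg (by linarith)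
        positivity) (fun _ _ => rfl)
    refine ⟨c, Real.exp (A * K) * C, max (max T₀ T₁) 3, hc, fun T hT => ?_⟩
    have hT0 : T₀ ≤ T := (le_max_left _ _).trans ((le_max_left _ _).trans hT)
    have hT1 : T₁ ≤ T := (le_max_right _ _).trans ((le_max_left _ _).trans hT)
    have hT3 : 3 ≤ T := (le_max_right _ _).trans hT
    have hTp : 0 < T := by linarith
    have hL : 0 < Real.log T := Real.log_pos (by linarith)
    constructor
    · refine (h2 T hT1).trans (le_of_eq ?_)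
      unfold JN
      simp only [mul_one]
    · have h3 : JN lam K T ≤ Real.exp (A * K) * JW lam A T := by
        rw [hJW]
        unfold JN
        rw [fsum_eq, Sm_eq, Sm_eq, Finset.mul_sum]
        refine Finset.sum_le_sum fun s hs => ?_
        rw [Set.Finite.mem_toFinset] at hs
        have hs0 : 0 < s.im := hs.2.2.2.1
        have hsT : s.im ≤ T := hs.2.2.2.2
        by_cases h4 : deriv riemannZeta s ≠ 0 ∧ |s.re - 1 / 2| ≤ K / Real.log T
        · rw [if_pos h4, if_pos h4.1, abs_of_pos hs0]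
          have e1 : T ^ (-(A * |s.re - 1 / 2|)) ≤ s.im ^ (-(A * |s.re - 1 / 2|)) := by
            apply Real.rpow_le_rpow_of_nonpos hs0 hsT
            have : 0 ≤ A * |s.re - 1 / 2| := by positivity
            linarith
          have e2 : Real.exp (-(A * K)) ≤ T ^ (-(A * |s.re - 1 / 2|)) := by
            rw [Real.rpow_def_of_pos hTp]
            apply Real.exp_le_exp.2
            have e3 : Real.log T * |s.re - 1 / 2| ≤ K := by
              have := mul_le_mul_of_nonneg_left h4.2 hL.le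
              rwa [mul_div_cancel₀ _ hL.ne'] at this
            have e4 := mul_le_mul_of_nonneg_left e3 hA
            nlinarith
          have e5 : 1 ≤ Real.exp (A * K) * s.im ^ (-(A * |s.re - 1 / 2|)) := by
            calc (1 : ℝ) = Real.exp (A * K) * Real.exp (-(A * K)) := by rw [← Real.exp_add]; simp
              _ ≤ Real.exp (A * K) * s.im ^ (-(A * |s.re - 1 / 2|)) :=
                mul_le_mul_of_nonneg_left (e2.trans e1) (Real.exp_pos _).le
          have e6 : 0 ≤ ‖deriv riemannZeta s‖ ^ (2 * lam) := by positivity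
          calc ‖deriv riemannZeta s‖ ^ (2 * lam) = ‖deriv riemannZeta s‖ ^ (2 * lam) * 1 := (mul_one _).symm
            _ ≤ ‖deriv riemannZeta s‖ ^ (2 * lam) * (Real.exp (A * K) * s.im ^ (-(A * |s.re - 1 / 2|))) :=
              mul_le_mul_of_nonneg_left e5 e6
            _ = _ := by ring
        · rw [if_neg h4]
          split_ifs
          · positivity
          · simp
      refine h3.trans ((mul_le_mul_of_nonneg_left (h T hT0) (Real.exp_pos _).le).trans (le_of_eq ?_))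
      ring

end

end Pool.Agent.Results.MP_69b2e4_nt.SmallOrdersLead
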